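import Pool.Agent.Wien566.Broom

/-!
# The Wiener index of graphs of small diameter gap is maximised by a double broom

MP_ed5641_co, Q1, answered positively: for all `d ≥ 3` and
`d + 1 ≤ n ≤ d - 2 + 4 ⌊√((d - 1) / 2)⌋`, the maximum of the Wiener index over all connected graphs
of order `n` and diameter `d` is attained by a double broom of order `n` and diameter `d`.
-/

namespace Pool.Agent.Results.MP_ed5641_co.DoubleBroomMaximum

open Finset Pool.Agent.Wien566

/-- The Wiener index of a graph on `Fin n`: the sum of the distances `d(u, w)` over all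
unordered pairs of distinct vertices (each pair is listed once, as `u < w`). -/
noncomputable def wienerIndex {n : ℕ} (G : SimpleGraph (Fin n)) : ℕ :=
  ∑ p ∈ (Finset.univ : Finset (Fin n × Fin n)).filter (fun p => p.1 < p.2), G.dist p.1 p.2

/-- `B` is a double broom of diameter `d`: its edges are those of a path `v 0, v 1, …, v d` with
distinct vertices and, for every further vertex `x`, the single edge from `x` to `f x`, where
`f x` is `v 1` or `v (d - 1)`. -/
def IsDoubleBroom {V : Type*} (B : SimpleGraph V) (d : ℕ) : Prop :=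
  ∃ (v : ℕ → V) (f : V → V),
    (∀ i ≤ d, ∀ j ≤ d, v i = v j → i = j) ∧
    (∀ x, f x = v 1 ∨ f x = v (d - 1)) ∧
    ∀ x y, B.Adj x y ↔
      (∃ i < d, (x = v i ∧ y = v (i + 1)) ∨ (y = v i ∧ x = v (i + 1))) ∨
      ((∀ i ≤ d, x ≠ v i) ∧ y = f x) ∨
      ((∀ i ≤ d, y ≠ v i) ∧ x = f y)

theorem two_wiener {n : ℕ} (G : SimpleGraph (Fin n)) :
    2 * wienerIndex G = ∑ x, ∑ y, G.dist x y := by
  have h1 : ∑ x, ∑ y, G.dist x y = ∑ p : Fin n × Fin n, G.dist p.1 p.2 := by
    rw [Fintype.sum_prod_type]
  have h2 : ∀ p : Fin n × Fin n, G.dist p.1 p.2 =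
      (if p.1 < p.2 then G.dist p.1 p.2 else 0) + (if p.2 < p.1 then G.dist p.2 p.1 else 0) := by
    intro p
    rcases lt_trichotomy p.1 p.2 with h | h | h
    · rw [if_pos h, if_neg (not_lt.2 h.le)]; simp
    · rw [h]; simp
    · rw [if_neg (not_lt.2 h.le), if_pos h, SimpleGraph.dist_comm]; simp
  rw [h1, sum_congr rfl fun p _ => h2 p, sum_add_distrib]
  have h3 : ∑ p : Fin n × Fin n, (if p.2 < p.1 then G.dist p.2 p.1 else 0) =
      ∑ p : Fin n × Fin n, (if p.1 < p.2 then G.dist p.1 p.2 else 0) :=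
    (Equiv.sum_comp (Equiv.prodComm (Fin n) (Fin n))
      (fun p : Fin n × Fin n => if p.1 < p.2 then G.dist p.1 p.2 else 0))
  rw [h3, ← sum_filter]
  unfold wienerIndex
  ring

theorem brm_isDoubleBroom {n d a : ℕ} (hn : 0 < n) (hd : 3 ≤ d) (ha : 1 ≤ a)
    (had : a + d ≤ n) : IsDoubleBroom (brm n d a) d := by
  refine ⟨ww hn a, fun x => if x.val < a - 1 then ww hn a 1 else ww hn a (d - 1), ?_, ?_, ?_⟩
  · intro i hi j hj h
    have h1 := pos_ww hn ha had hi
    have h2 := pos_ww hn ha had hj
    rw [h] at h1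
    omega
  · intro x
    by_cases hx : x.val < a - 1
    · left; simp [hx]
    · right; simp [hx]
  · have hpath : ∀ x : Fin n, (∀ i ≤ d, x ≠ ww hn a i) → x.val < a - 1 ∨ a - 1 + d < x.val := by
      intro x hx
      by_contra hcon
      push Not at hcon
      apply hx (x.val - (a - 1)) (by omega)
      apply Fin.ext
      unfold ww
      simp only
      have := x.isLt
      omega
    intro x y
    have key : ∀ x y : Fin n, pos d a x + 1 = pos d a y →
        (∃ i < d, (x = ww hn a i ∧ y = ww hn a (i + 1)) ∨ (y = ww hn a i ∧ x = ww hn a (i + 1))) ∨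
        ((∀ i ≤ d, x ≠ ww hn a i) ∧
          y = (if x.val < a - 1 then ww hn a 1 else ww hn a (d - 1))) ∨
        ((∀ i ≤ d, y ≠ ww hn a i) ∧
          x = (if y.val < a - 1 then ww hn a 1 else ww hn a (d - 1))) := by
      intro x y hxy
      have hx := x.isLt
      have hy := y.isLt
      unfold pos at hxy
      by_cases h1 : x.val < a - 1
      · right; left
        constructor
        · intro i hi e
          rw [Fin.ext_iff] at e
          unfold ww at e
          simp only at e
          omega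
        · rw [if_pos h1]
          apply Fin.ext
          unfold ww
          simp only
          omega
      · by_cases h2 : a - 1 + d < y.val
        · right; right
          constructor
          · intro i hi e
            rw [Fin.ext_iff] at e
            unfold ww at e
            simp only at e
            omega
          · rw [if_neg (by omega)]
            apply Fin.ext
            unfold ww
            simp only
            omega
        · left
          refine ⟨x.val + 1 - a, by omega, Or.inl ⟨?_, ?_⟩⟩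
          · apply Fin.ext
            unfold ww
            simp only
            omega
          · apply Fin.ext
            unfold ww
            simp only
            omega
    rw [brm_adj]
    constructor
    · rintro (h | h)
      · exact key x y h
      · rcases key y x h with ⟨i, hi, h1 | h1⟩ | h1 | h1
        · left; exact ⟨i, hi, Or.inr h1⟩
        · left; exact ⟨i, hi, Or.inl h1⟩
        · right; right; exact h1
        · right; left; exact h1
    · have off : ∀ x y : Fin n, (∀ i ≤ d, x ≠ ww hn a i) →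
          y = (if x.val < a - 1 then ww hn a 1 else ww hn a (d - 1)) →
          pos d a x + 1 = pos d a y ∨ pos d a y + 1 = pos d a x := by
        intro x y h1 h2
        rcases hpath x h1 with h3 | h3
        · rw [if_pos h3] at h2
          rw [h2, pos_ww hn ha had (by omega)]
          unfold pos
          omega
        · rw [if_neg (by omega)] at h2
          rw [h2, pos_ww hn ha had (by omega)]
          unfold pos
          omega
      rintro (⟨i, hi, ⟨rfl, rfl⟩ | ⟨rfl, rfl⟩⟩ | ⟨h1, h2⟩ | ⟨h1, h2⟩)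
      · rw [pos_ww hn ha had hi.le, pos_ww hn ha had (by omega)]; left; rfl
      · rw [pos_ww hn ha had hi.le, pos_ww hn ha had (by omega)]; right; rfl
      · exact off x y h1 h2
      · exact (off y x h1 h2).symm

/-- The maximum of the Wiener index over the connected graphs of order `n` and diameter `d` is
attained by a double broom, for all `d ≥ 3` and `d + 1 ≤ n ≤ d - 2 + 4 ⌊√((d - 1) / 2)⌋`. -/
theorem result (d n : ℕ) (hd : 3 ≤ d) (hn : d + 1 ≤ n)
    (hn' : (n : ℤ) ≤ (d : ℤ) - 2 + 4 * ⌊Real.sqrt (((d : ℝ) - 1) / 2)⌋) :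
    ∃ B : SimpleGraph (Fin n), IsDoubleBroom B d ∧ B.Connected ∧ B.diam = d ∧
      ∀ G : SimpleGraph (Fin n), G.Connected → G.diam = d → wienerIndex G ≤ wienerIndex B := by
  obtain ⟨q, hq⟩ : ∃ q : ℤ, q = ⌊Real.sqrt (((d : ℝ) - 1) / 2)⌋ := ⟨_, rfl⟩
  obtain ⟨M, hM⟩ : ∃ M : ℕ, n = d + 1 + M := ⟨n - (d + 1), by omega⟩
  have hd3 : (3 : ℝ) ≤ d := by exact_mod_cast hd
  have hq1 : 1 ≤ q := by
    rw [hq, Int.le_floor]
    push_cast
    rw [Real.one_le_sqrt]
    linarith
  have hq2 : 2 * q ^ 2 + 1 ≤ (d : ℤ) := by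
    have h1 : (q : ℝ) ≤ Real.sqrt (((d : ℝ) - 1) / 2) := by rw [hq]; exact Int.floor_le _
    have h2 : (q : ℝ) ^ 2 ≤ ((d : ℝ) - 1) / 2 := by
      have h0 : (0 : ℝ) ≤ q := by exact_mod_cast (by linarith : (0 : ℤ) ≤ q)
      calc (q : ℝ) ^ 2 ≤ (Real.sqrt (((d : ℝ) - 1) / 2)) ^ 2 := pow_le_pow_left₀ h0 h1 2
        _ = ((d : ℝ) - 1) / 2 := Real.sq_sqrt (by linarith)
    have h3 : 2 * (q : ℝ) ^ 2 + 1 ≤ (d : ℝ) := by linarith
    exact_mod_cast h3
  rw [← hq] at hn'
  have hp : Par (Fintype.card (Fin n)) q d M := by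
    rw [Fintype.card_fin]
    refine ⟨hq1, hq2, ?_, ?_, ?_⟩
    · rw [hM]; push_cast; ring
    · rw [hM] at hn'; push_cast at hn'; linarith
    · positivity
  have hn0 : 0 < n := by omega
  obtain ⟨α', β', h1, h2, h3⟩ : ∃ α' β' : ℕ, α' + β' = M ∧ α' ≤ β' ∧ β' ≤ α' + 1 :=
    ⟨M / 2, M - M / 2, by omega, by omega, by omega⟩
  have hnab : n = d + 1 + (α' + β') := by omega
  refine ⟨brm n d (α' + 1), brm_isDoubleBroom hn0 hd (by omega) (by omega),
    brm_connected hn0 hd (by omega) (by omega), brm_diam hn0 hd (by omega) (by omega), ?_⟩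
  intro G hG hdiam
  have : Nonempty (Fin n) := ⟨⟨0, hn0⟩⟩
  -- diametral path
  obtain ⟨u, w, huw⟩ := SimpleGraph.exists_dist_eq_diam (G := G)
  rw [hdiam] at huw
  obtain ⟨v, v0, vd, hv⟩ := exists_geo hG w d u huw
  have hDP : DP G v d := by
    refine ⟨hG, hv, ?_⟩
    intro x y
    rw [← hdiam]
    exact SimpleGraph.dist_le_diam (SimpleGraph.connected_iff_ediam_ne_top.1 hG)
  have hcardX : (extras v d).card = M := by
    have := hDP.card
    rw [Fintype.card_fin] at this
    omega
  have hval := fun c => brm_value hn0 hd hnab c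
  suffices hs : 3 * (∑ x, ∑ y, (G.dist x y : ℤ)) ≤
      3 * ∑ x, ∑ y, ((brm n d (α' + 1)).dist x y : ℤ) by
    have e1 : (2 * (wienerIndex G : ℤ)) = ∑ x, ∑ y, (G.dist x y : ℤ) := by
      exact_mod_cast two_wiener G
    have e2 : (2 * (wienerIndex (brm n d (α' + 1)) : ℤ)) =
        ∑ x, ∑ y, ((brm n d (α' + 1)).dist x y : ℤ) := by
      exact_mod_cast two_wiener (brm n d (α' + 1))
    have : (wienerIndex G : ℤ) ≤ wienerIndex (brm n d (α' + 1)) := by linarith
    exact_mod_cast this
  by_cases hviol : ∃ x ∈ extras v d, (Rt G v (d / 2) x ∧ d - d / 2 < G.dist x (v (d / 2))) ∨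
      (¬ Rt G v (d / 2) x ∧ d / 2 < G.dist x (v (d / 2)))
  · obtain ⟨x, hx, hvx⟩ := hviol
    obtain ⟨e, f, i, j, s, k1, k2, T⟩ := exists_TG hDP hx
    obtain ⟨c1, c2, c3, c4⟩ := T.viol hDP rfl hd hvx
    have c5 := T.card_le
    rw [hcardX] at c5
    obtain ⟨c6, c7⟩ := hp.exc (by
      have : d ≤ 2 * M := by omega
      exact_mod_cast this)
    have c6' : d = 9 ∨ d = 10 := by exact_mod_cast c6
    have c7' : M = 5 := by exact_mod_cast c7
    have c8 := exc_bound hDP T (by rw [hcardX, c7']) c6' c1 c2 c3 c4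
    have hα : α' = 2 := by omega
    have hβ : β' = 3 := by omega
    have c9 := hval 0
    have c10 := broom_value (d : ℤ) 0 α' β'
    have hnz : (n : ℤ) = d + 1 + (α' + β') := by exact_mod_cast hnab
    rw [← hnz] at c10
    rw [c10, hα, hβ] at c9
    rw [hα]
    refine le_trans ?_ c9
    have c11 : (∑ x, ∑ y, (G.dist x y : ℤ)) ≤ ((if d = 9 then 924 else 1146 : ℕ) : ℤ) := by
      exact_mod_cast c8
    rcases c6' with hh | hh
    · rw [if_pos hh] at c11
      rw [hh]
      push_cast at c11 ⊢
      linarith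
    · rw [if_neg (by omega)] at c11
      rw [hh]
      push_cast at c11 ⊢
      linarith
  · push Not at hviol
    obtain ⟨α, β, hα, hβ, hab, hle⟩ := main_bound hDP rfl hp
      (fun x hx hR => (hviol x hx).1 hR)
      (fun x hx hR => (hviol x hx).2 hR)
    have hfin := final_bound hp (c := ((d / 2 : ℕ) : ℤ)) (c' := ((d / 2 : ℕ) : ℤ)) (α := α)
      (β := β) (α' := α') (β' := β') hα hβ hab (by exact_mod_cast h1) (by exact_mod_cast h2)
      (by exact_mod_cast h3)
    have h5 := hval ((d / 2 : ℕ) : ℤ)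
    rw [Fintype.card_fin] at hfin hle
    linarith

end Pool.Agent.Results.MP_ed5641_co.DoubleBroomMaximum
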